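import Mathlib
import Pool.Agent.R528.RM.Mg4
import Pool.Agent.R528.RM.Mg5

set_option autoImplicit false

/-!
# The Gaussian law in short intervals in Denjoy's random model of the Möbius function

The question of Good and Churchhouse is whether the sums of `μ` over the intervals of length `H`
starting at a random `x` in `[X, 2X]`, divided by `√(6 H / π²)`, have asymptotically the standard
normal law, for all `H = H(X)` between `X ^ ε` and `X ^ (1 - ε)`.  In Denjoy's random model `μ(n)` is
replaced, on the squarefree integers, by fair random signs.  We prove that almost surely the answer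
is yes in this model, for ALL functions `H(X)` simultaneously, in the wider range
`H(X) → ∞`, `H(X) ≤ X / (log X)³`: one exceptional null set serves for all functions `H`.

The proof represents the difference between the empirical characteristic function and its mean as a
martingale transform with an explicit predictable weight of size `O(√H / X)`, which gives an
exponential inequality, uniformly in `H` and in a fine grid of frequencies; the mean is evaluated by
means of the squarefree integers in short intervals on average, and Lévy's theorem concludes.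
-/

open MeasureTheory Filter
open scoped Topology

namespace Pool.Agent.Results.MP_4f18df_nt.GaussianSignModel

/-- the random function: `0` if `n` is not squarefree, and otherwise the sign of `n`, which is `1` if
`n ∈ S` and `-1` if `n ∉ S` -/
noncomputable def signed (S : Set ℕ) (n : ℕ) : ℝ :=
  open Classical in if Squarefree n then (if n ∈ S then 1 else -1) else 0

/-- its sum over the `H` integers of the interval `(x, x + H]` -/
noncomputable def windowSum (S : Set ℕ) (x H : ℕ) : ℝ := ∑ n ∈ Finset.Ioc x (x + H), signed S n

/-- the proportion of the integers `x` with `X ≤ x < 2 X` such that the sum over `(x, x + H]`,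
divided by `√(6 H / π²)`, is at most `t` -/
noncomputable def proportion (S : Set ℕ) (X H : ℕ) (t : ℝ) : ℝ :=
  (Set.ncard {x : ℕ | X ≤ x ∧ x < 2 * X ∧ windowSum S x H / √(6 / Real.pi ^ 2 * H) ≤ t} : ℝ) / X

open Pool.Agent.R528.RM

variable {Ω : Type} {A : ℕ → Set Ω}

lemma windowSum_eq (x H : ℕ) (ω : Ω) : windowSum {n | ω ∈ A n} x H = Zs Squarefree A x H ω := by
  classical
  have h5 : Finset.Ioc x (x + H) = (Finset.Ico x (x + H)).image (fun k => k + 1) := by
    ext n
    simp only [Finset.mem_Ioc, Finset.mem_image, Finset.mem_Ico]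
    constructor
    · rintro ⟨h6, h7⟩
      exact ⟨n - 1, by omega, by omega⟩
    · rintro ⟨k, ⟨h6, h7⟩, rfl⟩
      omega
  unfold windowSum Zs
  rw [h5, Finset.sum_image fun a _ b _ h => Nat.succ_injective h]
  refine Finset.sum_congr rfl fun k _ => ?_
  unfold signed In
  show (if Squarefree (k + 1) then (if ω ∈ A (k + 1) then (1 : ℝ) else -1) else 0) = _
  by_cases h1 : Squarefree (k + 1)
  · rw [if_pos h1, if_pos h1]
    by_cases h2 : ω ∈ A (k + 1)
    · rw [if_pos h2, Set.indicator_of_mem h2]
      norm_num
    · rw [if_neg h2, Set.indicator_of_notMem h2]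
      norm_num
  · rw [if_neg h1, if_neg h1]

lemma proportion_eq (X H : ℕ) (t : ℝ) (ω : Ω) : proportion {n | ω ∈ A n} X H t =
    (((Finset.Ico X (2 * X)).filter (fun x => Zn A x H ω ≤ t)).card : ℝ) / X := by
  unfold proportion
  congr 2
  rw [← Set.ncard_coe_finset]
  congr 1
  ext x
  simp only [Set.mem_ofPred_eq, Finset.coe_filter, Finset.mem_Ico, windowSum_eq]
  unfold Zn
  tauto

lemma gauss_eq (a : ℝ) : (ProbabilityTheory.gaussianReal 0 1 (Set.Iic a)).toReal =
    (√(2 * Real.pi))⁻¹ * ∫ u in Set.Iic a, Real.exp (-u ^ 2 / 2) := by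
  rw [ProbabilityTheory.gaussianReal_apply_eq_integral _ one_ne_zero,
    ENNReal.toReal_ofReal (integral_nonneg fun x => ProbabilityTheory.gaussianPDFReal_nonneg 0 1 x), ← integral_const_mul]
  refine integral_congr_ae (Eventually.of_forall fun u => ?_)
  simp [ProbabilityTheory.gaussianPDFReal]

end Pool.Agent.Results.MP_4f18df_nt.GaussianSignModel

open Pool.Agent.Results.MP_4f18df_nt.GaussianSignModel

/-- Let the events `A n` (the sign of `n` is `+1`) be adapted to a filtration `ℱ`, and let the
conditional probability of `A (n + 1)` given `ℱ n` be `1 / 2` almost surely, for every `n`.  Then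
almost surely, for every function `H` with `H(X) → ∞` and `H(X) ≤ X / (log X)³` for all large `X`,
and for every real `t`, the proportion of the integers `x` in `[X, 2X)` such that the sum of the
signs of the squarefree integers of `(x, x + H(X)]`, divided by `√(6 H(X) / π²)`, is at most `t`,
tends to the value at `t` of the standard normal distribution function, as `X → ∞`. -/
theorem Pool.Agent.Results.MP_4f18df_nt.GaussianSignModel.result
    {Ω : Type} [mΩ : MeasurableSpace Ω] (μ : Measure Ω) [IsProbabilityMeasure μ]
    (ℱ : Filtration ℕ mΩ) (A : ℕ → Set Ω) (hA : ∀ n, MeasurableSet[ℱ n] (A n))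
    (hf : ∀ n, ∀ᵐ ω ∂μ, (μ[(A (n + 1)).indicator (fun _ => (1 : ℝ)) | ℱ n]) ω = 1 / 2) :
    ∀ᵐ ω ∂μ, ∀ H : ℕ → ℕ, Tendsto H atTop atTop →
      (∀ᶠ X : ℕ in atTop, (H X : ℝ) ≤ X / Real.log X ^ 3) → ∀ t : ℝ,
        Tendsto (fun X : ℕ => proportion {n | ω ∈ A n} X (H X) t) atTop
          (𝓝 ((√(2 * Real.pi))⁻¹ * ∫ u in Set.Iic t, Real.exp (-u ^ 2 / 2))) := by
  have hκ : (0 : ℝ) < 6 / Real.pi ^ 2 := by positivity
  filter_upwards [Pool.Agent.R528.RM.conc_ae (μ := μ) (ℱ := ℱ) (A := A) Squarefree hA hf hκ] with ω hω H h1 h2 t
  rw [← gauss_eq]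
  simp_rw [proportion_eq]
  exact Pool.Agent.R528.RM.cdf_lim (fun X x => Pool.Agent.R528.RM.Zn A x (H X) ω)
    (fun s => Pool.Agent.R528.RM.char_lim hω h1 h2 s) t
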