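import Pool.Agent.R303.SW.Mo

/-!
# Large deviations of Moebius sums over short intervals and the Riemann hypothesis

`M(x;H)` is the sum of `μ(n)` over `|n - x| < H/2`, and `Z = M(x;H) / √(H/ζ(2))`.

1. If `ζ` has a zero with real part `> θ ≥ 1/2`, then for all `κ ≥ 0` with `4θ(1-θ)(κ+1) ≤ 1`, all
   `c > 0`, all `0 < ε < 1` and all large `X`: for all `0 < H ≤ X^(1-ε)`, the set of the `x` in
   `[X, X + cX/(log X)^κ]` with `|M(x;H)| ≥ H X^(θ-1)` has measure at least `H X^(-ε)`.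
2. The Riemann hypothesis holds if and only if for all `0 < ε < 1`, all large `X` and all
   `X^(1-ε) ≤ H ≤ X^(1-ε/2)` one has `|Z| < X^ε` for all `x` in `[X, 2X]`.
3. The Riemann hypothesis holds if and only if for all `0 < ε < 1` there are arbitrarily large `X` for which
   `P(|Z| ≥ X^ε) ≤ X^(-2ε)`, `x` uniform in `[X, 2X]`, for at least one `X^(1-ε) ≤ H ≤ X^(1-ε/2)`.
-/

set_option autoImplicit false
set_option maxHeartbeats 4000000

open Filter Topology Set MeasureTheory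
open Pool.Agent.W190 (SF rh_free)
open Pool.Agent.R303.SW

namespace Pool.Agent.Results.MP_4f18df_nt.LargeDeviationsRH

/-- `M(x;H)`, the sum of `μ(n)` over the natural numbers `n` with `|n - x| < H/2` -/
noncomputable def M (x H : ℝ) : ℝ :=
  ∑ n ∈ (Finset.range (⌈x + H⌉₊ + 1)).filter (fun n : ℕ => |(n : ℝ) - x| < H / 2),
    ((ArithmeticFunction.moebius n : ℤ) : ℝ)

/-- `Z = M(x;H) / sqrt (H / ζ(2))`, `ζ(2) = π^2/6`. -/
noncomputable def Z (x H : ℝ) : ℝ := M x H / Real.sqrt (H / (Real.pi ^ 2 / 6))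

lemma M_ae {H : ℝ} (hH : 0 < H) : ∀ᵐ x : ℝ, H / 2 ≤ x → M x H = DF muR H x := by
  filter_upwards [ae_not_nat H] with x hx hx2
  exact open_window muR (by simp [muR]) hH hx2 hx

/-- the exact value -/
lemma M_exact {x H : ℝ} (hH : 0 < H) (hx : H / 2 ≤ x) :
    M x H = SF muR ((⌈x + H / 2⌉₊ - 1 : ℕ) : ℝ) - SF muR (x - H / 2) := by
  have hc : 1 ≤ ⌈x + H / 2⌉₊ := Nat.one_le_iff_ne_zero.2 (Nat.ceil_pos.2 (by linarith)).ne'
  unfold M SF
  rw [Nat.floor_natCast]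
  have hle : ⌊x - H / 2⌋₊ ≤ ⌈x + H / 2⌉₊ - 1 := by
    have h1 : ⌊x - H / 2⌋₊ < ⌈x + H / 2⌉₊ := by
      rw [Nat.lt_ceil]
      have := Nat.floor_le (show 0 ≤ x - H / 2 by linarith)
      linarith
    omega
  have e1 : Finset.Icc 1 (⌈x + H / 2⌉₊ - 1) = Finset.Icc 1 ⌊x - H / 2⌋₊ ∪
      Finset.Ioc ⌊x - H / 2⌋₊ (⌈x + H / 2⌉₊ - 1) := by
    ext n
    simp only [Finset.mem_union, Finset.mem_Icc, Finset.mem_Ioc]
    omega
  rw [e1, Finset.sum_union (Finset.disjoint_left.2 fun n h1 h2 => by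
    rw [Finset.mem_Icc] at h1
    rw [Finset.mem_Ioc] at h2
    omega), add_sub_cancel_left]
  have e2 : (Finset.range (⌈x + H⌉₊ + 1)).filter (fun n : ℕ => |(n : ℝ) - x| < H / 2) =
      Finset.Ioc ⌊x - H / 2⌋₊ (⌈x + H / 2⌉₊ - 1) := by
    ext n
    rw [Finset.mem_filter, Finset.mem_range, Finset.mem_Ioc, Nat.floor_lt (by linarith), abs_lt]
    have h3 : n ≤ ⌈x + H / 2⌉₊ - 1 ↔ (n : ℝ) < x + H / 2 := by
      rw [← Nat.lt_ceil]
      omega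
    rw [h3]
    constructor
    · rintro ⟨_, h1, h2⟩
      exact ⟨by linarith, by linarith⟩
    · rintro ⟨h1, h2⟩
      refine ⟨?_, by linarith, by linarith⟩
      have : (n : ℝ) ≤ ⌈x + H⌉₊ := by
        have := Nat.le_ceil (x + H)
        linarith
      exact Nat.lt_succ_of_le (by exact_mod_cast this)
  rw [e2]
  rfl

theorem part1 (θ κ c ε : ℝ) (hθ : 1 / 2 ≤ θ) (hκ : 0 ≤ κ) (hcond : 4 * θ * (1 - θ) * (κ + 1) ≤ 1)
    (hc : 0 < c) (hε : 0 < ε) (hε1 : ε < 1) (hz : ∃ s : ℂ, riemannZeta s = 0 ∧ θ < s.re) :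
    ∀ᶠ X : ℝ in atTop, ∀ H : ℝ, 0 < H → H ≤ X ^ (1 - ε) →
      H * X ^ (-ε) ≤ (volume {x : ℝ | x ∈ Icc X (X + c * X / Real.log X ^ κ) ∧
        H * X ^ (θ - 1) ≤ |M x H|}).toReal := by
  filter_upwards [mu_large θ κ c ε hθ hκ hcond hc hε hε1 hz, eventually_ge_atTop (1:ℝ)] with X g1 g2
    H hH hH1
  have hHX : H ≤ X := by
    refine hH1.trans ?_
    conv_rhs => rw [← Real.rpow_one X]
    exact Real.rpow_le_rpow_of_exponent_le g2 (by linarith)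
  refine (g1 H hH hH1).trans (le_of_eq ?_)
  congr 1
  refine measure_congr ?_
  filter_upwards [M_ae hH] with x hx
  refine propext ?_
  show (x ∈ Icc X (X + c * X / Real.log X ^ κ) ∧ H * X ^ (θ - 1) ≤ |DF muR H x|) ↔
    (x ∈ Icc X (X + c * X / Real.log X ^ κ) ∧ H * X ^ (θ - 1) ≤ |M x H|)
  constructor
  · rintro ⟨h1, h2⟩
    rw [hx (by linarith [h1.1])]
    exact ⟨h1, h2⟩
  · rintro ⟨h1, h2⟩
    rw [hx (by linarith [h1.1])] at h2
    exact ⟨h1, h2⟩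

theorem rh_small (hrh : RiemannHypothesis) (ε : ℝ) (hε : 0 < ε) (hε1 : ε < 1) :
    ∀ᶠ X : ℝ in atTop, ∀ H : ℝ, X ^ (1 - ε) ≤ H → H ≤ X ^ (1 - ε / 2) →
      ∀ x ∈ Icc X (2 * X), |Z x H| < X ^ ε := by
  obtain ⟨C, hC⟩ := H353.mertens_of_free (1 / 2) le_rfl (rh_free.1 hrh) (1 / 2 + ε / 4) (by linarith)
  have hC' : ∀ y : ℝ, 1 ≤ y → |SF muR y| ≤ C * y ^ (1 / 2 + ε / 4) := hC
  have hC0 : 0 ≤ C := by
    have := (abs_nonneg _).trans (hC' 1 le_rfl)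
    simpa using this
  set K := 2 * (C * 4 ^ (1 / 2 + ε / 4)) * Real.sqrt (Real.pi ^ 2 / 6) with hK
  have t1 : ∀ᶠ X : ℝ in atTop, K < X ^ (ε / 4) :=
    (tendsto_rpow_atTop (by linarith)).eventually_gt_atTop _
  filter_upwards [t1, eventually_ge_atTop (2:ℝ)] with X g1 g2 H h1 h2 x hx
  have hX : 0 < X := by linarith
  have hH0 : 0 < H := lt_of_lt_of_le (by positivity) h1
  have hHX : H ≤ X := by
    refine h2.trans ?_
    conv_rhs => rw [← Real.rpow_one X]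
    exact Real.rpow_le_rpow_of_exponent_le (by linarith) (by linarith)
  have hb : ∀ z : ℝ, z ≤ 4 * X → |SF muR z| ≤ C * (4 * X) ^ (1 / 2 + ε / 4) := by
    intro z hz
    rcases le_or_gt 1 z with h | h
    · refine (hC' z h).trans ?_
      exact mul_le_mul_of_nonneg_left (Real.rpow_le_rpow (by linarith) hz (by linarith)) hC0
    · have e2 : SF muR z = 0 := by
        unfold SF
        rw [Nat.floor_eq_zero.2 h]
        simp
      rw [e2, abs_zero]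
      positivity
  have hM : |M x H| ≤ 2 * (C * (4 * X) ^ (1 / 2 + ε / 4)) := by
    rw [M_exact hH0 (by linarith [hx.1])]
    have h3 : ((⌈x + H / 2⌉₊ - 1 : ℕ) : ℝ) ≤ 4 * X := by
      have h4 := Nat.ceil_lt_add_one (show 0 ≤ x + H / 2 by linarith [hx.1])
      have h5 : ((⌈x + H / 2⌉₊ - 1 : ℕ) : ℝ) ≤ (⌈x + H / 2⌉₊ : ℝ) := by
        exact_mod_cast Nat.sub_le _ _
      linarith [hx.2]
    refine (abs_sub _ _).trans ?_
    have h6 := hb _ h3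
    have h7 := hb (x - H / 2) (by linarith [hx.2])
    linarith
  have hpi : 0 < Real.sqrt (Real.pi ^ 2 / 6) := Real.sqrt_pos.2 (by positivity)
  unfold Z
  rw [Real.sqrt_div hH0.le, div_div_eq_mul_div, abs_div, abs_mul, abs_of_pos hpi,
    abs_of_pos (Real.sqrt_pos.2 hH0), div_lt_iff₀ (Real.sqrt_pos.2 hH0)]
  have e1 : X ^ ((1 - ε) / 2) ≤ Real.sqrt H := by
    rw [Real.sqrt_eq_rpow]
    calc X ^ ((1 - ε) / 2) = (X ^ (1 - ε)) ^ (1 / 2 : ℝ) := by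
          rw [← Real.rpow_mul hX.le]
          congr 1
          ring
      _ ≤ _ := Real.rpow_le_rpow (by positivity) h1 (by norm_num)
  calc |M x H| * Real.sqrt (Real.pi ^ 2 / 6)
      ≤ 2 * (C * (4 * X) ^ (1 / 2 + ε / 4)) * Real.sqrt (Real.pi ^ 2 / 6) := by gcongr
    _ = K * X ^ (1 / 2 + ε / 4) := by
        rw [hK, Real.mul_rpow (by norm_num) hX.le]
        ring
    _ < X ^ (ε / 4) * X ^ (1 / 2 + ε / 4) := by gcongr
    _ = X ^ ε * X ^ ((1 - ε) / 2) := by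
        rw [← Real.rpow_add hX, ← Real.rpow_add hX]
        congr 1
        ring
    _ ≤ X ^ ε * Real.sqrt H := by gcongr

theorem rh_of_isolated (h : ∀ ε : ℝ, 0 < ε → ε < 1 →
      ∃ᶠ X : ℝ in atTop, ∃ H : ℝ, X ^ (1 - ε) ≤ H ∧ H ≤ X ^ (1 - ε / 2) ∧
        (volume {x : ℝ | x ∈ Icc X (2 * X) ∧ X ^ ε ≤ |Z x H|}).toReal / X ≤ X ^ (-(2 * ε))) :
    RiemannHypothesis := by
  rw [rh_free]
  intro s hs hz
  have hs1 : s.re < 1 := (Pool.Agent.W190.zero_FF hz).2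
  set θ := (1 / 2 + s.re) / 2 with hθ
  have h1 : 1 / 2 < θ := by rw [hθ]; linarith
  have h2 : θ < s.re := by rw [hθ]; linarith
  set ε := (2 * θ - 1) / 6 with hε
  have hε0 : 0 < ε := by rw [hε]; linarith
  have hε1 : ε < 1 := by rw [hε]; linarith
  have h3 := part1 θ 0 1 (ε / 2) h1.le le_rfl (by nlinarith [sq_nonneg (2 * θ - 1)]) one_pos (by linarith)
    (by linarith) ⟨s, hz, h2⟩
  obtain ⟨X, ⟨H, a1, a2, a3⟩, a4, a5⟩ := ((h ε hε0 hε1).and_eventually (h3.and (eventually_gt_atTop 1))).exists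
  have hX : 0 < X := by linarith
  have hH : 0 < H := lt_of_lt_of_le (by positivity) a1
  have a6 := a4 H hH a2
  rw [Real.rpow_zero, one_mul, div_one, ← two_mul] at a6
  have hsub : {x : ℝ | x ∈ Icc X (2 * X) ∧ H * X ^ (θ - 1) ≤ |M x H|} ⊆
      {x : ℝ | x ∈ Icc X (2 * X) ∧ X ^ ε ≤ |Z x H|} := by
    rintro x ⟨b1, b2⟩
    refine ⟨b1, ?_⟩
    have hpi : 1 ≤ Real.sqrt (Real.pi ^ 2 / 6) := by
      rw [Real.one_le_sqrt]
      have := Real.pi_gt_three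
      nlinarith
    unfold Z
    rw [Real.sqrt_div hH.le, div_div_eq_mul_div, abs_div, abs_mul,
      abs_of_pos (show 0 < Real.sqrt (Real.pi ^ 2 / 6) by linarith),
      abs_of_pos (Real.sqrt_pos.2 hH), le_div_iff₀ (Real.sqrt_pos.2 hH)]
    have e1 : X ^ ((1 - ε) / 2) ≤ Real.sqrt H := by
      rw [Real.sqrt_eq_rpow]
      calc X ^ ((1 - ε) / 2) = (X ^ (1 - ε)) ^ (1 / 2 : ℝ) := by
            rw [← Real.rpow_mul hX.le]
            congr 1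
            ring
        _ ≤ _ := Real.rpow_le_rpow (by positivity) a1 (by norm_num)
    have e2 : X ^ ε ≤ Real.sqrt H * X ^ (θ - 1) := by
      calc X ^ ε ≤ X ^ ((1 - ε) / 2) * X ^ (θ - 1) := by
            rw [← Real.rpow_add hX]
            refine Real.rpow_le_rpow_of_exponent_le a5.le ?_
            rw [hε]
            linarith
        _ ≤ _ := by gcongr
    calc X ^ ε * Real.sqrt H ≤ Real.sqrt H * X ^ (θ - 1) * Real.sqrt H := by gcongr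
      _ = Real.sqrt H ^ 2 * X ^ (θ - 1) := by ring
      _ = H * X ^ (θ - 1) := by rw [Real.sq_sqrt hH.le]
      _ ≤ |M x H| := b2
      _ ≤ |M x H| * Real.sqrt (Real.pi ^ 2 / 6) := le_mul_of_one_le_right (abs_nonneg _) hpi
  have hfin : volume {x : ℝ | x ∈ Icc X (2 * X) ∧ X ^ ε ≤ |Z x H|} ≠ ⊤ :=
    ((measure_mono (fun x hx => hx.1)).trans_lt (measure_Icc_lt_top (a := X) (b := 2 * X))).ne
  have a7 := ENNReal.toReal_mono hfin (measure_mono hsub)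
  rw [div_le_iff₀ hX] at a3
  have a8 : X ^ (1 - ε) * X ^ (-(ε / 2)) ≤ X ^ (-(2 * ε)) * X := by
    calc X ^ (1 - ε) * X ^ (-(ε / 2)) ≤ H * X ^ (-(ε / 2)) := by gcongr
      _ ≤ _ := a6.trans (a7.trans a3)
  rw [← Real.rpow_add hX, ← Real.rpow_add_one hX.ne'] at a8
  have a9 := (Real.rpow_le_rpow_left_iff a5).1 a8
  linarith

theorem isolated_of_small (h : ∀ ε : ℝ, 0 < ε → ε < 1 → ∀ᶠ X : ℝ in atTop, ∀ H : ℝ, X ^ (1 - ε) ≤ H →
      H ≤ X ^ (1 - ε / 2) → ∀ x ∈ Icc X (2 * X), |Z x H| < X ^ ε) (ε : ℝ) (hε : 0 < ε) (hε1 : ε < 1) :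
    ∃ᶠ X : ℝ in atTop, ∃ H : ℝ, X ^ (1 - ε) ≤ H ∧ H ≤ X ^ (1 - ε / 2) ∧
      (volume {x : ℝ | x ∈ Icc X (2 * X) ∧ X ^ ε ≤ |Z x H|}).toReal / X ≤ X ^ (-(2 * ε)) := by
  refine Eventually.frequently ?_
  filter_upwards [h ε hε hε1, eventually_ge_atTop (1:ℝ)] with X g1 g2
  have hX : 0 < X := by linarith
  have hH : X ^ (1 - ε) ≤ X ^ (1 - ε / 2) := Real.rpow_le_rpow_of_exponent_le g2 (by linarith)
  refine ⟨X ^ (1 - ε), le_rfl, hH, ?_⟩
  have : {x : ℝ | x ∈ Icc X (2 * X) ∧ X ^ ε ≤ |Z x (X ^ (1 - ε))|} = ∅ := by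
    rw [eq_empty_iff_forall_notMem]
    rintro x ⟨h1, h2⟩
    exact absurd (g1 _ le_rfl hH x h1) (not_lt.2 h2)
  rw [this, measure_empty, ENNReal.toReal_zero, zero_div]
  positivity

/-- Large deviations of Moebius sums over short intervals, and the Riemann hypothesis. -/
theorem result :
    (∀ θ κ c ε : ℝ, 1 / 2 ≤ θ → 0 ≤ κ → 4 * θ * (1 - θ) * (κ + 1) ≤ 1 → 0 < c → 0 < ε → ε < 1 →
      (∃ s : ℂ, riemannZeta s = 0 ∧ θ < s.re) →
      ∀ᶠ X : ℝ in atTop, ∀ H : ℝ, 0 < H → H ≤ X ^ (1 - ε) →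
        H * X ^ (-ε) ≤ (volume {x : ℝ | x ∈ Icc X (X + c * X / Real.log X ^ κ) ∧
          H * X ^ (θ - 1) ≤ |M x H|}).toReal) ∧
    (RiemannHypothesis ↔ ∀ ε : ℝ, 0 < ε → ε < 1 → ∀ᶠ X : ℝ in atTop, ∀ H : ℝ, X ^ (1 - ε) ≤ H →
      H ≤ X ^ (1 - ε / 2) → ∀ x ∈ Icc X (2 * X), |Z x H| < X ^ ε) ∧
    (RiemannHypothesis ↔ ∀ ε : ℝ, 0 < ε → ε < 1 →
      ∃ᶠ X : ℝ in atTop, ∃ H : ℝ, X ^ (1 - ε) ≤ H ∧ H ≤ X ^ (1 - ε / 2) ∧
        (volume {x : ℝ | x ∈ Icc X (2 * X) ∧ X ^ ε ≤ |Z x H|}).toReal / X ≤ X ^ (-(2 * ε))) :=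
  ⟨part1, ⟨rh_small, fun h => rh_of_isolated (isolated_of_small h)⟩,
    ⟨fun h => isolated_of_small (rh_small h), rh_of_isolated⟩⟩

end Pool.Agent.Results.MP_4f18df_nt.LargeDeviationsRH
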