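import Pool.Agent.R303.LW.C
import Pool.Agent.R303.LW.Kb

/-!
# Both tails of Moebius sums over short intervals

`M(x;H)` is the sum of `μ(n)` over `|n - x| < H/2`, and `Z = M(x;H) / √(H/ζ(2))`.

1. (Unconditional) For every `0 < ε < 1`, all large `X`, all `0 < H ≤ X` and both signs `s = ±1` there is an
   `x` in `[X, X^(1+ε)]` with `s M(x;H) ≥ H X^(-1/2-ε)`.
2. If `ζ` has a zero with real part `> θ ≥ 1/2`, the same holds with `s M(x;H) ≥ H X^(θ-1)`.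
3. For each of the signs `s = ±1`, the Riemann hypothesis holds if and only if for all `0 < ε < 1` there are
   arbitrarily large `X` with at least one `H` in `[X^(1-ε), X]` for which `s Z(x;H) ≤ X^(3ε)` for all `x` in
   `[X, X^(1+ε)]`.
4. (First absolute moment.) Unconditionally, for all `0 < ε < 1`, all large `X` and all `0 < H ≤ X` there is a `Y` in
   `[X, X^(1+ε)]` with `∫_Y^{2Y} |M(x;H)| dx ≥ H X^(1/2)`; if `ζ` has a zero with real part `> θ ≥ 1/2`, even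
   `≥ H X^θ`.
5. (Non-degeneracy.) Unconditionally, for every `0 < ε < 1/2`, all large `X` and all `X^(1-ε) ≤ H ≤ X` there is a `Y`
   in `[X, X^(1+ε)]` with `P(|Z(x;H)| ≥ Y^(-3ε)) ≥ Y^(-8ε)` for `x` uniform in `[Y, 2Y]`.
-/

set_option autoImplicit false
set_option maxHeartbeats 4000000

open Filter Topology Set MeasureTheory
open Pool.Agent.W190 (SF rh_free)
open Pool.Agent.R303.SW

namespace Pool.Agent.Results.MP_4f18df_nt.OneSidedTails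

/-- `M(x;H)`, the sum of `μ(n)` over the natural numbers `n` with `|n - x| < H/2` -/
noncomputable def M (x H : ℝ) : ℝ :=
  ∑ n ∈ (Finset.range (⌈x + H⌉₊ + 1)).filter (fun n : ℕ => |(n : ℝ) - x| < H / 2),
    ((ArithmeticFunction.moebius n : ℤ) : ℝ)

/-- `Z = M(x;H) / sqrt (H / ζ(2))`, `ζ(2) = π^2/6`. -/
noncomputable def Z (x H : ℝ) : ℝ := M x H / Real.sqrt (H / (Real.pi ^ 2 / 6))

/-- the exact value -/
lemma M_exact {x H : ℝ} (hH : 0 < H) (hx : H / 2 ≤ x) :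
    M x H = SF muR ((⌈x + H / 2⌉₊ - 1 : ℕ) : ℝ) - SF muR (x - H / 2) := by
  have hc : 1 ≤ ⌈x + H / 2⌉₊ := Nat.one_le_iff_ne_zero.2 (Nat.ceil_pos.2 (by linarith)).ne'
  unfold M SF
  rw [Nat.floor_natCast]
  have hle : ⌊x - H / 2⌋₊ ≤ ⌈x + H / 2⌉₊ - 1 := by
    have h1 : ⌊x - H / 2⌋₊ < ⌈x + H / 2⌉₊ := by
      rw [Nat.lt_ceil]
      have := Nat.floor_le (show 0 ≤ x - H / 2 by linarith)
      linarith
    omega
  have e1 : Finset.Icc 1 (⌈x + H / 2⌉₊ - 1) = Finset.Icc 1 ⌊x - H / 2⌋₊ ∪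
      Finset.Ioc ⌊x - H / 2⌋₊ (⌈x + H / 2⌉₊ - 1) := by
    ext n
    simp only [Finset.mem_union, Finset.mem_Icc, Finset.mem_Ioc]
    omega
  rw [e1, Finset.sum_union (Finset.disjoint_left.2 fun n h1 h2 => by
    rw [Finset.mem_Icc] at h1
    rw [Finset.mem_Ioc] at h2
    omega), add_sub_cancel_left]
  have e2 : (Finset.range (⌈x + H⌉₊ + 1)).filter (fun n : ℕ => |(n : ℝ) - x| < H / 2) =
      Finset.Ioc ⌊x - H / 2⌋₊ (⌈x + H / 2⌉₊ - 1) := by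
    ext n
    rw [Finset.mem_filter, Finset.mem_range, Finset.mem_Ioc, Nat.floor_lt (by linarith), abs_lt]
    have h3 : n ≤ ⌈x + H / 2⌉₊ - 1 ↔ (n : ℝ) < x + H / 2 := by
      rw [← Nat.lt_ceil]
      omega
    rw [h3]
    constructor
    · rintro ⟨_, h1, h2⟩
      exact ⟨by linarith, by linarith⟩
    · rintro ⟨h1, h2⟩
      refine ⟨?_, by linarith, by linarith⟩
      have : (n : ℝ) ≤ ⌈x + H⌉₊ := by
        have := Nat.le_ceil (x + H)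
        linarith
      exact Nat.lt_succ_of_le (by exact_mod_cast this)
  rw [e2]
  rfl

/-- the basic statement: `σ0` the supremum of the real parts of the zeros -/
theorem base {σ0 : ℝ} (h12 : 1 / 2 ≤ σ0) (h1 : σ0 ≤ 1) (hfree : ∀ s : ℂ, σ0 < s.re → riemannZeta s ≠ 0)
    (hzero : ∀ e : ℝ, 0 < e → ∃ ρ : ℂ, riemannZeta ρ = 0 ∧ σ0 - e < ρ.re) (ε δ : ℝ) (hδ : 0 < δ) (hδε : δ ≤ ε)
    (hε1 : ε < 1) :
    ∀ᶠ X : ℝ in atTop, ∀ H : ℝ, 0 < H → H ≤ X → ∀ s : ℝ, s = 1 ∨ s = -1 →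
      ∃ x ∈ Icc X (X ^ (1 + ε)), H * X ^ (σ0 - 1 - δ) ≤ s * M x H := by
  filter_upwards [Pool.Agent.R303.LW.chain h12 h1 hfree hzero δ hδ (by linarith), eventually_ge_atTop (1:ℝ)] with X g1 g2
    H hH hHX s hs
  obtain ⟨x, hx, hn, hx2, hm⟩ := g1 H hH hHX s hs
  refine ⟨x, ⟨hx.1, hx.2.trans (Real.rpow_le_rpow_of_exponent_le g2 (by linarith))⟩, ?_⟩
  have : M x H = DF muR H x := open_window muR (by simp [muR]) hH hx2 hn
  rw [this]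
  exact hm

/-- unconditional part -/
theorem part0 (ε : ℝ) (hε : 0 < ε) (hε1 : ε < 1) :
    ∀ᶠ X : ℝ in atTop, ∀ H : ℝ, 0 < H → H ≤ X → ∀ s : ℝ, s = 1 ∨ s = -1 →
      ∃ x ∈ Icc X (X ^ (1 + ε)), H * X ^ (-(1 / 2) - ε) ≤ s * M x H := by
  have key : ∃ σ0 : ℝ, 1 / 2 ≤ σ0 ∧ σ0 ≤ 1 ∧ (∀ s : ℂ, σ0 < s.re → riemannZeta s ≠ 0) ∧
      ∀ e : ℝ, 0 < e → ∃ ρ : ℂ, riemannZeta ρ = 0 ∧ σ0 - e < ρ.re := by
    by_cases h : ∃ s : ℂ, riemannZeta s = 0 ∧ 1 / 2 < s.re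
    · obtain ⟨σ0, h1, h2, h3, h4⟩ := supre h
      exact ⟨σ0, h1.le, h2, h3, h4⟩
    · push Not at h
      refine ⟨1 / 2, le_rfl, by norm_num, fun s hs hz => ?_, fun e he => ?_⟩
      · exact absurd hs (not_lt.2 (h s hz))
      · obtain ⟨ρ, h3, h4, -⟩ := H313.TK.exists_zero
        exact ⟨ρ, h3, by linarith⟩
  obtain ⟨σ0, h1, h2, h3, h4⟩ := key
  filter_upwards [base h1 h2 h3 h4 ε ε hε le_rfl hε1, eventually_ge_atTop (1:ℝ)] with X g1 g2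
    H hH hHX s hs
  obtain ⟨x, hx, hm⟩ := g1 H hH hHX s hs
  refine ⟨x, hx, le_trans ?_ hm⟩
  exact mul_le_mul_of_nonneg_left (Real.rpow_le_rpow_of_exponent_le g2 (by linarith)) hH.le

/-- a zero to the right of `θ` -/
theorem part1 (θ ε : ℝ) (hθ : 1 / 2 ≤ θ) (hε : 0 < ε) (hε1 : ε < 1)
    (hz : ∃ s : ℂ, riemannZeta s = 0 ∧ θ < s.re) :
    ∀ᶠ X : ℝ in atTop, ∀ H : ℝ, 0 < H → H ≤ X → ∀ s : ℝ, s = 1 ∨ s = -1 →
      ∃ x ∈ Icc X (X ^ (1 + ε)), H * X ^ (θ - 1) ≤ s * M x H := by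
  obtain ⟨σ0, h1, h2, h3, h4⟩ := supre hz
  filter_upwards [base (hθ.trans h1.le) h2 h3 h4 ε (min ε (σ0 - θ)) (lt_min hε (by linarith))
    (min_le_left _ _) hε1, eventually_ge_atTop (1:ℝ)] with X g1 g2 H hH hHX s hs
  obtain ⟨x, hx, hm⟩ := g1 H hH hHX s hs
  refine ⟨x, hx, le_trans ?_ hm⟩
  refine mul_le_mul_of_nonneg_left (Real.rpow_le_rpow_of_exponent_le g2 ?_) hH.le
  have := min_le_right ε (σ0 - θ)
  linarith

/-- the bound for `Z` on the Riemann hypothesis -/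
theorem rh_small (hrh : RiemannHypothesis) (ε : ℝ) (hε : 0 < ε) (hε1 : ε < 1) :
    ∀ᶠ X : ℝ in atTop, ∀ H : ℝ, X ^ (1 - ε) ≤ H → H ≤ X →
      ∀ x ∈ Icc X (X ^ (1 + ε)), |Z x H| ≤ X ^ (3 * ε) := by
  obtain ⟨C, hC⟩ := H353.mertens_of_free (1 / 2) le_rfl (rh_free.1 hrh) (1 / 2 + ε / 2) (by linarith)
  have hC' : ∀ y : ℝ, 1 ≤ y → |SF muR y| ≤ C * y ^ (1 / 2 + ε / 2) := hC
  have hC0 : 0 ≤ C := by
    have := (abs_nonneg _).trans (hC' 1 le_rfl)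
    simpa using this
  set K := 2 * (C * 4 ^ (1 / 2 + ε / 2)) * Real.sqrt (Real.pi ^ 2 / 6) with hK
  have t1 : ∀ᶠ X : ℝ in atTop, K < X ^ (ε / 4) :=
    (tendsto_rpow_atTop (by linarith)).eventually_gt_atTop _
  filter_upwards [t1, eventually_ge_atTop (2:ℝ)] with X g1 g2 H h1 hHX x hx
  have hX : 0 < X := by linarith
  have hX1 : 1 ≤ X := by linarith
  have hH0 : 0 < H := lt_of_lt_of_le (by positivity) h1
  set Y := X ^ (1 + ε) with hY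
  have hXY : X ≤ Y := by
    rw [hY]
    conv_lhs => rw [← Real.rpow_one X]
    exact Real.rpow_le_rpow_of_exponent_le hX1 (by linarith)
  have hY0 : 0 < Y := by linarith
  have hb : ∀ z : ℝ, z ≤ 4 * Y → |SF muR z| ≤ C * (4 * Y) ^ (1 / 2 + ε / 2) := by
    intro z hz
    rcases le_or_gt 1 z with h | h
    · refine (hC' z h).trans ?_
      exact mul_le_mul_of_nonneg_left (Real.rpow_le_rpow (by linarith) hz (by linarith)) hC0
    · have e2 : SF muR z = 0 := by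
        unfold SF
        rw [Nat.floor_eq_zero.2 h]
        simp
      rw [e2, abs_zero]
      positivity
  have hM : |M x H| ≤ 2 * (C * (4 * Y) ^ (1 / 2 + ε / 2)) := by
    rw [M_exact hH0 (by linarith [hx.1])]
    have h3 : ((⌈x + H / 2⌉₊ - 1 : ℕ) : ℝ) ≤ 4 * Y := by
      have h4 := Nat.ceil_lt_add_one (show 0 ≤ x + H / 2 by linarith [hx.1])
      have h5 : ((⌈x + H / 2⌉₊ - 1 : ℕ) : ℝ) ≤ (⌈x + H / 2⌉₊ : ℝ) := by
        exact_mod_cast Nat.sub_le _ _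
      linarith [hx.2]
    refine (abs_sub _ _).trans ?_
    have h6 := hb _ h3
    have h7 := hb (x - H / 2) (by linarith [hx.2])
    linarith
  have hpi : 0 < Real.sqrt (Real.pi ^ 2 / 6) := Real.sqrt_pos.2 (by positivity)
  unfold Z
  rw [Real.sqrt_div hH0.le, div_div_eq_mul_div, abs_div, abs_mul, abs_of_pos hpi,
    abs_of_pos (Real.sqrt_pos.2 hH0), div_le_iff₀ (Real.sqrt_pos.2 hH0)]
  have e1 : X ^ ((1 - ε) / 2) ≤ Real.sqrt H := by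
    rw [Real.sqrt_eq_rpow]
    calc X ^ ((1 - ε) / 2) = (X ^ (1 - ε)) ^ (1 / 2 : ℝ) := by
          rw [← Real.rpow_mul hX.le]
          congr 1
          ring
      _ ≤ _ := Real.rpow_le_rpow (by positivity) h1 (by norm_num)
  have e0 : Y ^ (1 / 2 + ε / 2) = X ^ ((1 + ε) * (1 / 2 + ε / 2)) := by
    rw [hY, ← Real.rpow_mul hX.le]
  calc |M x H| * Real.sqrt (Real.pi ^ 2 / 6)
      ≤ 2 * (C * (4 * Y) ^ (1 / 2 + ε / 2)) * Real.sqrt (Real.pi ^ 2 / 6) := by gcongr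
    _ = K * X ^ ((1 + ε) * (1 / 2 + ε / 2)) := by
        rw [hK, Real.mul_rpow (by norm_num) hY0.le, e0]
        ring
    _ ≤ X ^ (ε / 4) * X ^ ((1 + ε) * (1 / 2 + ε / 2)) := by gcongr
    _ ≤ X ^ (3 * ε) * X ^ ((1 - ε) / 2) := by
        rw [← Real.rpow_add hX, ← Real.rpow_add hX]
        refine Real.rpow_le_rpow_of_exponent_le hX1 ?_
        nlinarith
    _ ≤ X ^ (3 * ε) * Real.sqrt H := by gcongr

theorem rh_of_isolated (s : ℝ) (hs : s = 1 ∨ s = -1) (h : ∀ ε : ℝ, 0 < ε → ε < 1 →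
      ∃ᶠ X : ℝ in atTop, ∃ H : ℝ, X ^ (1 - ε) ≤ H ∧ H ≤ X ∧
        ∀ x ∈ Icc X (X ^ (1 + ε)), s * Z x H ≤ X ^ (3 * ε)) :
    RiemannHypothesis := by
  rw [rh_free]
  intro z hs1 hz
  have hz1 : z.re < 1 := (Pool.Agent.W190.zero_FF hz).2
  set θ := (1 / 2 + z.re) / 2 with hθ
  have h1 : 1 / 2 < θ := by rw [hθ]; linarith
  have h2 : θ < z.re := by rw [hθ]; linarith
  set ε := (2 * θ - 1) / 12 with hε
  have hε0 : 0 < ε := by rw [hε]; linarith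
  have hε1 : ε < 1 := by rw [hε]; linarith
  have h3 := part1 θ ε h1.le hε0 hε1 ⟨z, hz, h2⟩
  obtain ⟨X, ⟨H, a1, a2, a3⟩, a4, a5⟩ := ((h ε hε0 hε1).and_eventually (h3.and (eventually_gt_atTop 1))).exists
  have hX : 0 < X := by linarith
  have hH : 0 < H := lt_of_lt_of_le (by positivity) a1
  obtain ⟨x, hx, hm⟩ := a4 H hH a2 s hs
  have a6 := a3 x hx
  have hpi : 1 ≤ Real.sqrt (Real.pi ^ 2 / 6) := by
    rw [Real.one_le_sqrt]
    have := Real.pi_gt_three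
    nlinarith
  have hm0 : 0 ≤ s * M x H := le_trans (by positivity) hm
  have e1 : X ^ ((1 - ε) / 2) ≤ Real.sqrt H := by
    rw [Real.sqrt_eq_rpow]
    calc X ^ ((1 - ε) / 2) = (X ^ (1 - ε)) ^ (1 / 2 : ℝ) := by
          rw [← Real.rpow_mul hX.le]
          congr 1
          ring
      _ ≤ _ := Real.rpow_le_rpow (by positivity) a1 (by norm_num)
  have a7 : Real.sqrt H * X ^ (θ - 1) ≤ s * Z x H := by
    unfold Z
    rw [Real.sqrt_div hH.le, div_div_eq_mul_div, ← mul_div_assoc, le_div_iff₀ (Real.sqrt_pos.2 hH)]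
    calc Real.sqrt H * X ^ (θ - 1) * Real.sqrt H = Real.sqrt H ^ 2 * X ^ (θ - 1) := by ring
      _ = H * X ^ (θ - 1) := by rw [Real.sq_sqrt hH.le]
      _ ≤ s * M x H := hm
      _ ≤ (s * M x H) * Real.sqrt (Real.pi ^ 2 / 6) := le_mul_of_one_le_right hm0 hpi
      _ = s * (M x H * Real.sqrt (Real.pi ^ 2 / 6)) := by ring
  have a8 : X ^ ((1 - ε) / 2) * X ^ (θ - 1) ≤ X ^ (3 * ε) :=
    (mul_le_mul_of_nonneg_right e1 (by positivity)).trans (a7.trans a6)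
  rw [← Real.rpow_add hX] at a8
  have a9 := (Real.rpow_le_rpow_left_iff a5).1 a8
  linarith

theorem isolated_of_rh (s : ℝ) (hs : s = 1 ∨ s = -1) (hrh : RiemannHypothesis) (ε : ℝ) (hε : 0 < ε)
    (hε1 : ε < 1) :
    ∃ᶠ X : ℝ in atTop, ∃ H : ℝ, X ^ (1 - ε) ≤ H ∧ H ≤ X ∧
      ∀ x ∈ Icc X (X ^ (1 + ε)), s * Z x H ≤ X ^ (3 * ε) := by
  refine Eventually.frequently ?_
  filter_upwards [rh_small hrh ε hε hε1, eventually_ge_atTop (1:ℝ)] with X g1 g2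
  have hH : X ^ (1 - ε) ≤ X := by
    conv_rhs => rw [← Real.rpow_one X]
    exact Real.rpow_le_rpow_of_exponent_le g2 (by linarith)
  refine ⟨X, hH, le_rfl, fun x hx => ?_⟩
  have h1 := g1 X hH le_rfl x hx
  have h2 : s * Z x X ≤ |s * Z x X| := le_abs_self _
  have h3 : |s| = 1 := by rcases hs with h | h <;> rw [h] <;> simp
  rw [abs_mul, h3, one_mul] at h2
  exact h2.trans h1

lemma M_ae {H : ℝ} (hH : 0 < H) : ∀ᵐ x : ℝ, H / 2 ≤ x → M x H = DF muR H x := by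
  filter_upwards [ae_not_nat H] with x hx hx2
  exact open_window muR (by simp [muR]) hH hx2 hx

lemma DF_I' (H x y : ℝ) : IntervalIntegrable (fun z => |DF muR H z|) volume x y := by
  have := (DF_II muR H 0 x y).abs
  simpa using this

lemma low_mu (ρ : ℂ) (hz : riemannZeta ρ = 0) (h0 : 1 / 2 ≤ ρ.re) (h1 : ρ.re < 1) :
    ∃ c : ℝ, 0 < c ∧ ∀ᶠ z : ℝ in atTop, c * z ^ (1 + ρ.re) ≤ ∫ y in z..(z * Real.log z), |SF muR y| := by
  have hm := H313.TK.mm_meas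
  have hb := H313.TK.abs_mm_le
  refine Pool.Agent.R303.LW.win_y (f := H313.TK.mm) (g := SF muR) (fun _ => rfl) (SF_meas muR)
    (fun x hx => H313.TK.abs_MM_le hx) (Pool.Agent.R303.LW.win_abs hm hb ρ.re h0 ?_)
  obtain ⟨c, hc, h⟩ := H313.TK.core1' ρ hz (by linarith) h1
  refine ⟨c, hc, ?_⟩
  filter_upwards [h] with t ht
  have h2 := ht 1 (Or.inl rfl)
  simp only [one_mul] at h2
  refine h2.trans ?_
  refine integral_mono
    (H313.TK.avg_int (fun u => max (H313.TK.mm u) 0) (by fun_prop) (fun u => ?_) t)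
    (H313.TK.avg_int (fun u => |H313.TK.mm u|) (by fun_prop) (fun u => by rw [abs_abs]; exact hb u) t) fun v => ?_
  · rw [abs_of_nonneg (le_max_right _ _)]
    exact max_le ((le_abs_self _).trans (hb u)) (Real.exp_pos _).le
  · exact mul_le_mul_of_nonneg_right (max_le (le_abs_self _) (abs_nonneg _)) (H313.TK.kp_nonneg v)

/-- the basic statement: `σ0` the supremum of the real parts of the zeros -/
theorem baseI {σ0 : ℝ} (h12 : 1 / 2 ≤ σ0) (h1 : σ0 ≤ 1) (hfree : ∀ s : ℂ, σ0 < s.re → riemannZeta s ≠ 0)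
    (hzero : ∀ e : ℝ, 0 < e → ∃ ρ : ℂ, riemannZeta ρ = 0 ∧ σ0 - e < ρ.re) (ε : ℝ) (hε : 0 < ε) (hε1 : ε < 1) :
    ∀ᶠ X : ℝ in atTop, ∀ H : ℝ, 0 < H → H ≤ X →
      ∃ Y ∈ Icc X (X ^ (1 + ε)), H * X ^ σ0 ≤ ∫ x in Y..(2 * Y), |DF muR H x| := by
  obtain ⟨ρ, hρ, hβ2, hβe⟩ : ∃ ρ : ℂ, riemannZeta ρ = 0 ∧ 1 / 2 ≤ ρ.re ∧ σ0 - (ε / 2) / 16 < ρ.re := by
    obtain ⟨ρ, hρ, h⟩ := hzero ((ε / 2) / 16) (by linarith)
    rcases le_or_gt (1 / 2) ρ.re with h2 | h2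
    · exact ⟨ρ, hρ, h2, h⟩
    · obtain ⟨ρ', h3, h4, -⟩ := H313.TK.exists_zero
      exact ⟨ρ', h3, h4, by linarith⟩
  obtain ⟨c, hc, hlow⟩ := low_mu ρ hρ hβ2 (Pool.Agent.W190.zero_FF hρ).2
  obtain ⟨C, hC⟩ := H353.mertens_of_free σ0 h12 hfree (σ0 + (ε / 2) / 16) (by linarith)
  have hC' : ∀ y : ℝ, 1 ≤ y → |SF muR y| ≤ C * y ^ (σ0 + (ε / 2) / 16) := hC
  have t1 : ∀ᶠ X : ℝ in atTop, 2 ≤ X ^ (ε / 2) := (tendsto_rpow_atTop (by linarith)).eventually_ge_atTop _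
  filter_upwards [Pool.Agent.R303.LW.chain1 muR h12 h1 (by linarith : 0 < ε / 2) (by linarith) hβ2 hβe hc hC' hlow,
    t1, eventually_ge_atTop (1:ℝ)] with X g1 g2 g3 H hH hHX
  obtain ⟨Y, hY, hI⟩ := g1 H hH hHX
  have hX : 0 < X := by linarith
  have hXY : X ≤ X ^ (1 + ε / 2) := by
    conv_lhs => rw [← Real.rpow_one X]
    exact Real.rpow_le_rpow_of_exponent_le g3 (by linarith)
  refine ⟨Y + H / 2, ⟨by linarith [hY.1], ?_⟩, hI.trans ?_⟩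
  · have e1 : X ^ (1 + ε) = X ^ (1 + ε / 2) * X ^ (ε / 2) := by
      rw [← Real.rpow_add hX]
      congr 1
      ring
    rw [e1]
    nlinarith [hY.2]
  · have e1 : ∫ x in Y..(2 * Y), |DG muR H x| = ∫ x in (Y + H / 2)..(2 * Y + H / 2), |DF muR H x| := by
      rw [← intervalIntegral.integral_comp_add_right (fun x => |DF muR H x|)]
      refine intervalIntegral.integral_congr fun x _ => ?_
      show |DG muR H x| = |DF muR H (x + H / 2)|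
      unfold DG DF
      congr 3
      · ring
      · ring
    rw [e1]
    exact intervalIntegral.integral_mono_interval le_rfl (by linarith [hY.1]) (by linarith)
      (ae_of_all _ fun x => abs_nonneg _) (DF_I' H _ _)

lemma int_eq {H Y : ℝ} (hH : 0 < H) (hY : 0 < Y) (hHY : H ≤ Y) :
    ∫ x in Y..(2 * Y), |M x H| = ∫ x in Y..(2 * Y), |DF muR H x| := by
  refine intervalIntegral.integral_congr_ae ?_
  filter_upwards [M_ae hH] with x hx hx2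
  rw [uIoc_of_le (by linarith)] at hx2
  rw [hx (by linarith [hx2.1])]

/-- the supremum of the real parts, in all cases -/
lemma exists_sup : ∃ σ0 : ℝ, 1 / 2 ≤ σ0 ∧ σ0 ≤ 1 ∧ (∀ s : ℂ, σ0 < s.re → riemannZeta s ≠ 0) ∧
      ∀ e : ℝ, 0 < e → ∃ ρ : ℂ, riemannZeta ρ = 0 ∧ σ0 - e < ρ.re := by
  by_cases h : ∃ s : ℂ, riemannZeta s = 0 ∧ 1 / 2 < s.re
  · obtain ⟨σ0, h1, h2, h3, h4⟩ := supre h
    exact ⟨σ0, h1.le, h2, h3, h4⟩
  · push Not at h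
    refine ⟨1 / 2, le_rfl, by norm_num, fun s hs hz => ?_, fun e he => ?_⟩
    · exact absurd hs (not_lt.2 (h s hz))
    · obtain ⟨ρ, h3, h4, -⟩ := H313.TK.exists_zero
      exact ⟨ρ, h3, by linarith⟩

theorem mom (ε : ℝ) (hε : 0 < ε) (hε1 : ε < 1) :
    ∀ᶠ X : ℝ in atTop, ∀ H : ℝ, 0 < H → H ≤ X →
      ∃ Y ∈ Icc X (X ^ (1 + ε)), H * X ^ (1 / 2 : ℝ) ≤ ∫ x in Y..(2 * Y), |M x H| := by
  obtain ⟨σ0, h1, h2, h3, h4⟩ := exists_sup
  filter_upwards [baseI h1 h2 h3 h4 ε hε hε1, eventually_ge_atTop (1:ℝ)] with X g1 g2 H hH hHX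
  obtain ⟨Y, hY, hI⟩ := g1 H hH hHX
  refine ⟨Y, hY, ?_⟩
  rw [int_eq hH (by linarith [hY.1]) (by linarith [hY.1])]
  exact (mul_le_mul_of_nonneg_left (Real.rpow_le_rpow_of_exponent_le g2 h1) hH.le).trans hI

theorem momz (θ ε : ℝ) (hθ : 1 / 2 ≤ θ) (hε : 0 < ε) (hε1 : ε < 1)
    (hz : ∃ s : ℂ, riemannZeta s = 0 ∧ θ < s.re) :
    ∀ᶠ X : ℝ in atTop, ∀ H : ℝ, 0 < H → H ≤ X →
      ∃ Y ∈ Icc X (X ^ (1 + ε)), H * X ^ θ ≤ ∫ x in Y..(2 * Y), |M x H| := by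
  obtain ⟨σ0, h1, h2, h3, h4⟩ := supre hz
  filter_upwards [baseI (by linarith) h2 h3 h4 ε hε hε1, eventually_ge_atTop (1:ℝ)] with X g1 g2 H hH hHX
  obtain ⟨Y, hY, hI⟩ := g1 H hH hHX
  refine ⟨Y, hY, ?_⟩
  rw [int_eq hH (by linarith [hY.1]) (by linarith [hY.1])]
  exact (mul_le_mul_of_nonneg_left (Real.rpow_le_rpow_of_exponent_le g2 h1.le) hH.le).trans hI

theorem nondeg (ε : ℝ) (hε : 0 < ε) (hε1 : ε < 1 / 2) :
    ∀ᶠ X : ℝ in atTop, ∀ H : ℝ, X ^ (1 - ε) ≤ H → H ≤ X →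
      ∃ Y ∈ Icc X (X ^ (1 + ε)), Y ^ (-(8 * ε)) ≤
        (volume {x : ℝ | x ∈ Icc Y (2 * Y) ∧ Y ^ (-(3 * ε)) ≤ |Z x H|}).toReal / Y := by
  obtain ⟨σ0, h1, h2, h3, h4⟩ := exists_sup
  obtain ⟨C, hC⟩ := H353.mertens_of_free σ0 h1 h3 (σ0 + ε) (by linarith)
  have hC' : ∀ y : ℝ, 1 ≤ y → |SF muR y| ≤ C * y ^ (σ0 + ε) := hC
  have hC0 : 0 ≤ C := by
    have := (abs_nonneg _).trans (hC' 1 le_rfl)
    simpa using this
  have t1 : ∀ᶠ X : ℝ in atTop, 4 * (16 * (C + 1)) ≤ X ^ ε :=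
    (tendsto_rpow_atTop (by linarith)).eventually_ge_atTop _
  filter_upwards [baseI h1 h2 h3 h4 ε hε (by linarith), t1, eventually_ge_atTop (2:ℝ)] with X g1 g2 g3 H hH hHX
  have hX : 0 < X := by linarith
  have hX1 : 1 ≤ X := by linarith
  have hH0 : 0 < H := lt_of_lt_of_le (by positivity) hH
  obtain ⟨Y, hY, hI⟩ := g1 H hH0 hHX
  have hY0 : 0 < Y := by linarith [hY.1]
  have hY1 : 1 ≤ Y := by linarith [hY.1]
  have hXY : X ≤ Y := hY.1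
  refine ⟨Y, hY, ?_⟩
  -- the supremum bound
  set S := 2 * (16 * (C + 1) * Y ^ (σ0 + ε)) with hS
  have hYp : 0 < Y ^ (σ0 + ε) := Real.rpow_pos_of_pos hY0 _
  have hS0 : 0 < S := by rw [hS]; positivity
  have hb : ∀ z : ℝ, z ≤ 4 * Y → |SF muR z| ≤ 16 * (C + 1) * Y ^ (σ0 + ε) := by
    intro z hz
    rcases le_or_gt 1 z with h | h
    · refine (hC' z h).trans ?_
      have e1 : z ^ (σ0 + ε) ≤ 16 * Y ^ (σ0 + ε) := by
        calc z ^ (σ0 + ε) ≤ (4 * Y) ^ (σ0 + ε) := Real.rpow_le_rpow (by linarith) hz (by linarith)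
          _ = 4 ^ (σ0 + ε) * Y ^ (σ0 + ε) := Real.mul_rpow (by norm_num) hY0.le
          _ ≤ 4 ^ (2:ℝ) * Y ^ (σ0 + ε) := by
              gcongr
              · norm_num
              · linarith
          _ = _ := by norm_num
      nlinarith
    · have e2 : SF muR z = 0 := by
        unfold SF
        rw [Nat.floor_eq_zero.2 h]
        simp
      rw [e2, abs_zero]
      positivity
  have hgS : ∀ x ∈ Icc Y (2 * Y), |DF muR H x| ≤ S := by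
    intro x hx
    unfold DF
    have h5 := hb (x + H / 2) (by linarith [hx.2])
    have h6 := hb (x - H / 2) (by linarith [hx.2])
    refine (abs_sub _ _).trans ?_
    rw [hS]
    linarith
  set T := H * X ^ σ0 / (2 * Y) with hT
  have hXp : 0 < X ^ σ0 := Real.rpow_pos_of_pos hX _
  have key := large_set (g := DF muR H) (DF_meas muR H) (X := Y) (Y := 2 * Y) (T := T) (S := S)
    (A := H * X ^ σ0) (by linarith) hS0 (DF_I' H Y (2 * Y)) hgS hI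
    (by
      rw [hT]
      have : 2 * Y - Y = Y := by ring
      rw [this]
      refine le_of_eq ?_
      field_simp) (by positivity)
  have hYX : Y ≤ X ^ (1 + ε) := hY.2
  -- comparison of the sets
  have hsub : volume {x : ℝ | x ∈ Icc Y (2 * Y) ∧ T ≤ |DF muR H x|} ≤
      volume {x : ℝ | x ∈ Icc Y (2 * Y) ∧ Y ^ (-(3 * ε)) ≤ |Z x H|} := by
    refine measure_mono_ae ?_
    filter_upwards [M_ae hH0] with x hx
    rintro ⟨b1, b2⟩
    refine ⟨b1, ?_⟩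
    rw [← hx (by linarith [b1.1])] at b2
    have hpi : 1 ≤ Real.sqrt (Real.pi ^ 2 / 6) := by
      rw [Real.one_le_sqrt]
      have := Real.pi_gt_three
      nlinarith
    unfold Z
    rw [Real.sqrt_div hH0.le, div_div_eq_mul_div, abs_div, abs_mul,
      abs_of_pos (show 0 < Real.sqrt (Real.pi ^ 2 / 6) by linarith),
      abs_of_pos (Real.sqrt_pos.2 hH0), le_div_iff₀ (Real.sqrt_pos.2 hH0)]
    have e1 : X ^ ((1 - ε) / 2) ≤ Real.sqrt H := by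
      rw [Real.sqrt_eq_rpow]
      calc X ^ ((1 - ε) / 2) = (X ^ (1 - ε)) ^ (1 / 2 : ℝ) := by
            rw [← Real.rpow_mul hX.le]
            congr 1
            ring
        _ ≤ _ := Real.rpow_le_rpow (by positivity) hH (by norm_num)
    have e2 : Y ^ (-(3 * ε)) ≤ X ^ (-(3 * ε)) := Real.rpow_le_rpow_of_nonpos hX hXY (by linarith)
    have e3 : 2 * Y * X ^ (-(3 * ε)) ≤ Real.sqrt H * X ^ σ0 := by
      have e4 : 2 ≤ X ^ ε := by linarith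
      calc 2 * Y * X ^ (-(3 * ε)) ≤ X ^ ε * X ^ (1 + ε) * X ^ (-(3 * ε)) := by gcongr
        _ = X ^ (1 - ε) := by
            rw [← Real.rpow_add hX, ← Real.rpow_add hX]
            congr 1
            ring
        _ ≤ X ^ ((1 - ε) / 2) * X ^ σ0 := by
            rw [← Real.rpow_add hX]
            exact Real.rpow_le_rpow_of_exponent_le hX1 (by linarith)
        _ ≤ _ := by gcongr
    have e5 : Y ^ (-(3 * ε)) * Real.sqrt H ≤ T := by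
      rw [hT, le_div_iff₀ (by linarith)]
      calc Y ^ (-(3 * ε)) * Real.sqrt H * (2 * Y) ≤ X ^ (-(3 * ε)) * Real.sqrt H * (2 * Y) := by gcongr
        _ = Real.sqrt H * (2 * Y * X ^ (-(3 * ε))) := by ring
        _ ≤ Real.sqrt H * (Real.sqrt H * X ^ σ0) := by gcongr
        _ = Real.sqrt H ^ 2 * X ^ σ0 := by ring
        _ = H * X ^ σ0 := by rw [Real.sq_sqrt hH0.le]
    exact (e5.trans b2).trans (le_mul_of_one_le_right (abs_nonneg _) hpi)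
  have hfin : volume {x : ℝ | x ∈ Icc Y (2 * Y) ∧ Y ^ (-(3 * ε)) ≤ |Z x H|} ≠ ⊤ :=
    ((measure_mono (fun x hx => hx.1)).trans_lt (measure_Icc_lt_top (a := Y) (b := 2 * Y))).ne
  have k1 := key.trans (ENNReal.toReal_mono hfin hsub)
  rw [le_div_iff₀ hY0]
  refine le_trans ?_ k1
  rw [le_div_iff₀ (by positivity), hS]
  have f1 : Y ^ (-(8 * ε)) * Y = Y ^ (1 - 8 * ε) := by
    rw [← Real.rpow_add_one hY0.ne']
    congr 1
    ring
  rw [f1]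
  have f2 : Y ^ (1 - 8 * ε) * (2 * (2 * (16 * (C + 1) * Y ^ (σ0 + ε)))) =
      (4 * (16 * (C + 1))) * Y ^ (1 + σ0 - 7 * ε) := by
    have : Y ^ (1 + σ0 - 7 * ε) = Y ^ (1 - 8 * ε) * Y ^ (σ0 + ε) := by
      rw [← Real.rpow_add hY0]
      congr 1
      ring
    rw [this]
    ring
  rw [f2]
  have f3 : X ^ (1 - ε) * X ^ σ0 ≤ H * X ^ σ0 := by gcongr
  refine le_trans ?_ f3
  rw [← Real.rpow_add hX]
  rcases le_or_gt 0 (1 + σ0 - 7 * ε) with h | h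
  · calc 4 * (16 * (C + 1)) * Y ^ (1 + σ0 - 7 * ε) ≤ X ^ ε * (X ^ (1 + ε)) ^ (1 + σ0 - 7 * ε) := by gcongr
      _ = X ^ (ε + (1 + ε) * (1 + σ0 - 7 * ε)) := by
          rw [← Real.rpow_mul hX.le, ← Real.rpow_add hX]
      _ ≤ _ := by
          refine Real.rpow_le_rpow_of_exponent_le hX1 ?_
          have q1 : ε * σ0 ≤ ε := by nlinarith
          have q2 : 0 ≤ ε * ε := by positivity
          have q3 : (1 + ε) * (1 + σ0 - 7 * ε) = 1 + σ0 - 6 * ε + ε * σ0 - 7 * (ε * ε) := by ring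
          rw [q3]
          linarith
  · have f4 : Y ^ (1 + σ0 - 7 * ε) ≤ 1 := Real.rpow_le_one_of_one_le_of_nonpos hY1 h.le
    calc 4 * (16 * (C + 1)) * Y ^ (1 + σ0 - 7 * ε) ≤ X ^ ε * 1 := by gcongr
      _ = X ^ ε := mul_one _
      _ ≤ _ := Real.rpow_le_rpow_of_exponent_le hX1 (by linarith)

/-- Both tails of Moebius sums over short intervals, and the Riemann hypothesis. -/
theorem result :
    (∀ ε : ℝ, 0 < ε → ε < 1 → ∀ᶠ X : ℝ in atTop, ∀ H : ℝ, 0 < H → H ≤ X → ∀ s : ℝ, s = 1 ∨ s = -1 →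
      ∃ x ∈ Icc X (X ^ (1 + ε)), H * X ^ (-(1 / 2) - ε) ≤ s * M x H) ∧
    (∀ θ ε : ℝ, 1 / 2 ≤ θ → 0 < ε → ε < 1 → (∃ s : ℂ, riemannZeta s = 0 ∧ θ < s.re) →
      ∀ᶠ X : ℝ in atTop, ∀ H : ℝ, 0 < H → H ≤ X → ∀ s : ℝ, s = 1 ∨ s = -1 →
        ∃ x ∈ Icc X (X ^ (1 + ε)), H * X ^ (θ - 1) ≤ s * M x H) ∧
    (∀ s : ℝ, s = 1 ∨ s = -1 → (RiemannHypothesis ↔ ∀ ε : ℝ, 0 < ε → ε < 1 →
      ∃ᶠ X : ℝ in atTop, ∃ H : ℝ, X ^ (1 - ε) ≤ H ∧ H ≤ X ∧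
        ∀ x ∈ Icc X (X ^ (1 + ε)), s * Z x H ≤ X ^ (3 * ε))) ∧
    (∀ ε : ℝ, 0 < ε → ε < 1 → ∀ᶠ X : ℝ in atTop, ∀ H : ℝ, 0 < H → H ≤ X →
      ∃ Y ∈ Icc X (X ^ (1 + ε)), H * X ^ (1 / 2 : ℝ) ≤ ∫ x in Y..(2 * Y), |M x H|) ∧
    (∀ θ ε : ℝ, 1 / 2 ≤ θ → 0 < ε → ε < 1 → (∃ s : ℂ, riemannZeta s = 0 ∧ θ < s.re) →
      ∀ᶠ X : ℝ in atTop, ∀ H : ℝ, 0 < H → H ≤ X →
        ∃ Y ∈ Icc X (X ^ (1 + ε)), H * X ^ θ ≤ ∫ x in Y..(2 * Y), |M x H|) ∧
    (∀ ε : ℝ, 0 < ε → ε < 1 / 2 → ∀ᶠ X : ℝ in atTop, ∀ H : ℝ, X ^ (1 - ε) ≤ H → H ≤ X →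
      ∃ Y ∈ Icc X (X ^ (1 + ε)), Y ^ (-(8 * ε)) ≤
        (volume {x : ℝ | x ∈ Icc Y (2 * Y) ∧ Y ^ (-(3 * ε)) ≤ |Z x H|}).toReal / Y) :=
  ⟨part0, part1, fun s hs => ⟨isolated_of_rh s hs, rh_of_isolated s hs⟩, mom, momz, nondeg⟩

end Pool.Agent.Results.MP_4f18df_nt.OneSidedTails
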