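import Pool.Agent.R613.GC.E2

/-!
# The distribution of Möbius sums over windows proportional to `x`

Let `M(x;H) = ∑_{|n-x|<H/2} μ(n)` and `Z_δ(x) = M(x;δx) / √(δx/ζ(2))`, the normalisation of Good and Churchhouse
for windows of length `H = δx`, `0 < δ ≤ 1` fixed. We show unconditionally that `Z_δ` has a limiting distribution
for the logarithmic density (with convergence for all continuous test functions of at most quadratic growth) if
and only if the weak Mertens hypothesis holds, and that such a limiting distribution has mean `0` and variance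
`ζ(2) ((1+δ/2)/δ) ∑_ρ |1 - e^(-Lρ)|² / |ρ ζ'(ρ)|²`, where `L = log((1+δ/2)/(1-δ/2))`.
-/

set_option autoImplicit false

open Filter Topology MeasureTheory

namespace Pool.Agent.Results.MP_4f18df_nt.ProportionalWindowLaws

/-- `M(x;H)`, the sum of `μ(n)` over the integers `n ≥ 0` with `|n - x| < H/2` -/
noncomputable def window (x H : ℝ) : ℝ :=
  ∑ n ∈ (Finset.range (⌈x + H⌉₊ + 1)).filter (fun n : ℕ => |(n : ℝ) - x| < H / 2),
    ((ArithmeticFunction.moebius n : ℤ) : ℝ)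

/-- `Z_δ(x) = M(x;δx) / √(δx/ζ(2))`, with `ζ(2) = π²/6` -/
noncomputable def Z (δ x : ℝ) : ℝ := window x (δ * x) / Real.sqrt (δ * x / (Real.pi ^ 2 / 6))

/-- the logarithmic average of `g` over `1 ≤ x ≤ Y` -/
noncomputable def logMean (g : ℝ → ℝ) (Y : ℝ) : ℝ := (∫ x in (1:ℝ)..Y, g x / x) / Real.log Y

/-- `ν` is the limiting distribution of `Z_δ` for logarithmic averages, with convergence for all continuous test
functions of at most quadratic growth -/
def IsLimitLaw (δ : ℝ) (ν : ProbabilityMeasure ℝ) : Prop := ∀ φ : ℝ → ℝ, Continuous φ →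
  (∃ C : ℝ, ∀ t, |φ t| ≤ C * (1 + t ^ 2)) → Integrable φ (ν : Measure ℝ) ∧
    Tendsto (logMean fun x => φ (Z δ x)) atTop (𝓝 (∫ t, φ t ∂(ν : Measure ℝ)))

/-- the Mertens function -/
noncomputable def M (u : ℝ) : ℝ := ∑ n ∈ Finset.Icc 1 ⌊u⌋₊, ((ArithmeticFunction.moebius n : ℤ) : ℝ)

/-- the weak Mertens hypothesis -/
def WeakMertens : Prop := ∃ C : ℝ, ∀ x : ℝ, 2 ≤ x → ∫ u in (1:ℝ)..x, (M u / u) ^ 2 ≤ C * Real.log x

/-- the nontrivial zeros of the Riemann zeta function -/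
def NT : Set ℂ := {s : ℂ | riemannZeta s = 0 ∧ 0 < s.re ∧ s.re < 1}

theorem result {δ : ℝ} (hδ : 0 < δ) (hδ1 : δ ≤ 1) :
    (WeakMertens ↔ ∃ ν : ProbabilityMeasure ℝ, IsLimitLaw δ ν) ∧
    ∀ ν : ProbabilityMeasure ℝ, IsLimitLaw δ ν → ∫ t, t ∂(ν : Measure ℝ) = 0 ∧
      ∫ t, t ^ 2 ∂(ν : Measure ℝ) = Real.pi ^ 2 / 6 * ((1 + δ / 2) / δ *
        ∑' ρ : NT, ‖1 - Complex.exp (-((Real.log ((1 + δ / 2) / (1 - δ / 2)) : ℝ) * (ρ : ℂ)))‖ ^ 2 /
          ‖(ρ : ℂ) * deriv riemannZeta ρ‖ ^ 2) :=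
  Pool.Agent.R613.GE.law_main hδ hδ1

end Pool.Agent.Results.MP_4f18df_nt.ProportionalWindowLaws
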